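import Mathlib
import Pool.Agent.X55.HZ.Stm

set_option autoImplicit false

namespace Pool.Agent.X292.HZ

open Finset Pool.Agent.X55.HZ

theorem t_POS : S_POS := by
  intro n S h x y
  classical
  have hstep : ∀ (k : ℕ) (b : Fin n), ((1 + S) ^ (k + 1)) x b ≠ 0 ↔
      ((1 + S) ^ k) x b ≠ 0 ∨ ∃ c, ((1 + S) ^ k) x c ≠ 0 ∧ S c b ≠ 0 := by
    intro k b
    rw [pow_succ, mul_add, mul_one, Matrix.add_apply, Matrix.mul_apply]
    rw [Ne, Nat.add_eq_zero_iff, not_and_or, Finset.sum_eq_zero_iff]
    refine or_congr Iff.rfl ?_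
    push Not
    constructor
    · rintro ⟨c, -, hc⟩
      exact ⟨c, left_ne_zero_of_mul hc, right_ne_zero_of_mul hc⟩
    · rintro ⟨c, h1, h2⟩
      exact ⟨c, Finset.mem_univ c, mul_ne_zero h1 h2⟩
  have hmono : ∀ k : ℕ, (univ.filter fun b : Fin n => ((1 + S) ^ k) x b ≠ 0) ⊆
      univ.filter fun b : Fin n => ((1 + S) ^ (k + 1)) x b ≠ 0 := by
    intro k b hb
    rw [Finset.mem_filter] at hb ⊢
    exact ⟨Finset.mem_univ b, (hstep k b).2 (Or.inl hb.2)⟩
  have hx : ∀ k : ℕ, ((1 + S) ^ k) x x ≠ 0 := by
    intro k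
    induction k with
    | zero => rw [pow_zero, Matrix.one_apply_eq]; exact one_ne_zero
    | succ k ih => exact (hstep k x).2 (Or.inl ih)
  have key : ∀ k : ℕ, (univ.filter fun b : Fin n => ((1 + S) ^ k) x b ≠ 0) = univ ∨
      k + 1 ≤ (univ.filter fun b : Fin n => ((1 + S) ^ k) x b ≠ 0).card := by
    intro k
    induction k with
    | zero =>
      right
      exact Finset.card_pos.2 ⟨x, Finset.mem_filter.2 ⟨Finset.mem_univ x, hx 0⟩⟩
    | succ k ih =>
      by_cases hu : (univ.filter fun b : Fin n => ((1 + S) ^ (k + 1)) x b ≠ 0) = univ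
      · exact Or.inl hu
      right
      rcases ih with h1 | h1
      · have h3 := hmono k
        rw [h1] at h3
        exact absurd (Finset.univ_subset_iff.1 h3) hu
      · have hne : (univ.filter fun b : Fin n => ((1 + S) ^ k) x b ≠ 0) ≠
            univ.filter fun b : Fin n => ((1 + S) ^ (k + 1)) x b ≠ 0 := by
          intro he
          apply hu
          rw [Finset.eq_univ_iff_forall]
          intro b
          have hr := h x b
          induction hr with
          | refl => exact Finset.mem_filter.2 ⟨Finset.mem_univ x, hx _⟩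
          | tail _ hbc ih' =>
            rw [← he, Finset.mem_filter] at ih'
            exact Finset.mem_filter.2 ⟨Finset.mem_univ _, (hstep k _).2 (Or.inr ⟨_, ih'.2, hbc⟩)⟩
        have := Finset.card_lt_card (lt_of_le_of_ne (hmono k) hne)
        omega
  rcases key n with h1 | h1
  · have := Finset.mem_univ y
    rw [← h1, Finset.mem_filter] at this
    exact this.2
  · have h2 := Finset.card_le_univ (univ.filter fun b : Fin n => ((1 + S) ^ n) x b ≠ 0)
    rw [Fintype.card_fin] at h2
    omega

end Pool.Agent.X292.HZ
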